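import Pool.Agent.H800R2.StolzF

set_option autoImplicit false

open Set Filter Topology MeasureTheory

namespace Pool.Agent.Results.MP_31144c_an.NullValueSets

open Pool.Agent.H800R2.Stolz

/-- There is an analytic function `f` in the unit disk such that for almost every point
`P = exp (iθ)` of the unit circle: `P` is not of type (a) for `f`, and for every Stolz angle `S` at
`P` the set `V f P S` of the values taken infinitely often as `z → P` within `S` has planar measure
zero. In particular it is not true that for every `f` analytic in the unit disk almost every `P` is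
of type (a) or such that for every Stolz angle `S` at `P` the complement of `V f P S` has planar
measure zero. -/
theorem result :
    (∃ f : ℂ → ℂ, DifferentiableOn ℂ f (Metric.ball 0 1) ∧
      ∀ᵐ θ : ℝ, ¬ TypeA f (Complex.exp (θ * Complex.I)) ∧ ∀ C > 1, ∀ δ > 0,
        volume (V f (Complex.exp (θ * Complex.I)) (stolz (Complex.exp (θ * Complex.I)) C δ)) = 0) ∧
    ¬ ∀ f : ℂ → ℂ, DifferentiableOn ℂ f (Metric.ball 0 1) →
      ∀ᵐ θ : ℝ, TypeA f (Complex.exp (θ * Complex.I)) ∨ ∀ C > 1, ∀ δ > 0,
        volume (V f (Complex.exp (θ * Complex.I))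
          (stolz (Complex.exp (θ * Complex.I)) C δ))ᶜ = 0 := by
  refine ⟨main, fun h => ?_⟩
  obtain ⟨f, hf, h1⟩ := main
  obtain ⟨θ, ⟨hA, hV⟩, h2⟩ := (h1.and (h f hf)).exists
  rcases h2 with h2 | h2
  · exact hA h2
  · have e1 := hV 2 (by norm_num) 1 one_pos
    have e2 := h2 2 (by norm_num) 1 one_pos
    have e3 : volume (univ : Set ℂ) ≤ 0 := by
      rw [← union_compl_self (V f (Complex.exp (θ * Complex.I))
        (stolz (Complex.exp (θ * Complex.I)) 2 1))]
      refine (measure_union_le _ _).trans ?_
      rw [e1, e2, add_zero]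
    have e4 : 0 < volume (univ : Set ℂ) := isOpen_univ.measure_pos _ univ_nonempty
    exact absurd e3 (not_le.2 e4)

end Pool.Agent.Results.MP_31144c_an.NullValueSets
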